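import Pool.Agent.Helper76.CQ.Defs
import Pool.Agent.Helper86.CY.TanProj
import Pool.Agent.Helper24.CQ.AlgInverse

/-!
# Planes in the cubic near the given one (piece CQ-10)
-/

namespace Pool.Agent.Helper13.CQ

open MvPolynomial Pool.Agent.Helper76.CY Pool.Agent.Helper76.CQ Filter Topology

/-- The first indices of the ten triples. -/
def ta : Fin 10 → Fin 3 := ![0, 0, 0, 0, 0, 0, 1, 1, 1, 2]

/-- The second indices of the ten triples. -/
def tb : Fin 10 → Fin 3 := ![0, 0, 0, 1, 1, 2, 1, 1, 2, 2]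

/-- The third indices of the ten triples. -/
def tc : Fin 10 → Fin 3 := ![0, 1, 2, 1, 2, 2, 1, 2, 2, 2]

/-- A function of three indices that is symmetric and vanishes at the ten triples vanishes. -/
theorem zero_of_ten {A : Type*} [Zero A] (f : Fin 3 → Fin 3 → Fin 3 → A)
    (h12 : ∀ i j k, f i j k = f j i k) (h23 : ∀ i j k, f i j k = f i k j)
    (h : ∀ s, f (ta s) (tb s) (tc s) = 0) (i j k : Fin 3) : f i j k = 0 := by
  have h000 : f 0 0 0 = 0 := h 0
  have h001 : f 0 0 1 = 0 := h 1
  have h002 : f 0 0 2 = 0 := h 2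
  have h011 : f 0 1 1 = 0 := h 3
  have h012 : f 0 1 2 = 0 := h 4
  have h022 : f 0 2 2 = 0 := h 5
  have h111 : f 1 1 1 = 0 := h 6
  have h112 : f 1 1 2 = 0 := h 7
  have h122 : f 1 2 2 = 0 := h 8
  have h222 : f 2 2 2 = 0 := h 9
  have h010 : f 0 1 0 = 0 := (h23 0 1 0).trans h001
  have h020 : f 0 2 0 = 0 := (h23 0 2 0).trans h002
  have h021 : f 0 2 1 = 0 := (h23 0 2 1).trans h012
  have h100 : f 1 0 0 = 0 := (h12 1 0 0).trans h010
  have h101 : f 1 0 1 = 0 := (h12 1 0 1).trans h011
  have h102 : f 1 0 2 = 0 := (h12 1 0 2).trans h012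
  have h110 : f 1 1 0 = 0 := (h23 1 1 0).trans h101
  have h120 : f 1 2 0 = 0 := (h23 1 2 0).trans h102
  have h121 : f 1 2 1 = 0 := (h23 1 2 1).trans h112
  have h200 : f 2 0 0 = 0 := (h12 2 0 0).trans h020
  have h201 : f 2 0 1 = 0 := (h12 2 0 1).trans h021
  have h202 : f 2 0 2 = 0 := (h12 2 0 2).trans h022
  have h210 : f 2 1 0 = 0 := (h23 2 1 0).trans h201
  have h211 : f 2 1 1 = 0 := (h12 2 1 1).trans h121
  have h212 : f 2 1 2 = 0 := (h12 2 1 2).trans h122
  have h220 : f 2 2 0 = 0 := (h23 2 2 0).trans h202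
  have h221 : f 2 2 1 = 0 := (h23 2 2 1).trans h212
  fin_cases i <;> fin_cases j <;> fin_cases k <;> assumption

/-- Leibniz rule for trilinear forms. -/
theorem pderiv_tri {K : Type*} [Field K] (D : Ten K) (q : Idx)
    (x y z : Fin 10 → MvPolynomial Idx K) :
    pderiv q (tri D x y z) = tri D (fun i => pderiv q (x i)) y z +
      tri D x (fun i => pderiv q (y i)) z + tri D x y (fun i => pderiv q (z i)) := by
  simp only [tri, map_sum, ← Finset.sum_add_distrib]
  refine Finset.sum_congr rfl fun i _ => Finset.sum_congr rfl fun j _ =>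
    Finset.sum_congr rfl fun k _ => ?_
  have h0 : pderiv q (algebraMap K (MvPolynomial Idx K) (D i j k)) = 0 := pderiv_C
  rw [Derivation.leibniz, Derivation.leibniz, Derivation.leibniz, h0]
  simp only [smul_eq_mul]
  ring

theorem aeval_row {K : Type*} [Field K] {R : Type*} [CommRing R] [Algebra K R] (y : Idx → R)
    (i : Fin 3) :
    (fun m => aeval y (row (X : Idx → MvPolynomial Idx K) i m)) = row y i := by
  funext m
  rw [row, row, Pi.add_apply, Pi.add_apply, map_add, bv_apply, bv_apply, tv, tv]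
  congr 1
  · split_ifs <;> simp
  · split_ifs <;> simp

theorem aeval_tri_row {K : Type*} [Field K] {R : Type*} [CommRing R] [Algebra K R] (D : Ten K)
    (y : Idx → R) (i j k : Fin 3) :
    aeval y (tri D (row (X : Idx → MvPolynomial Idx K) i) (row X j) (row X k)) =
      tri D (row y i) (row y j) (row y k) := by
  rw [tri_map, aeval_row, aeval_row, aeval_row]

theorem aeval_pderiv_row {K : Type*} [Field K] {R : Type*} [CommRing R] [Algebra K R]
    (y : Idx → R) (q : Idx) (i : Fin 3) :
    (fun m => aeval y (pderiv q (row (X : Idx → MvPolynomial Idx K) i m))) =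
      fun m => algebraMap K R (tv (Pi.single q (1 : K)) i m) := by
  funext m
  rw [row, Pi.add_apply, map_add, bv_apply, tv, tv]
  have h1 : pderiv q (if m = c3 i then (1 : MvPolynomial Idx K) else 0) = 0 := by
    split_ifs <;> simp
  rw [h1, zero_add]
  split_ifs with h
  · simp
  · rw [pderiv_X]
    by_cases hq : ((i, ⟨(m : ℕ) - 3, by omega⟩) : Idx) = q
    · subst hq
      simp
    · rw [Pi.single_eq_of_ne hq, Pi.single_eq_of_ne hq, map_zero, map_zero]

/-- The linear part of the equation `D(r_i, r_j, r_k) = 0`. -/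
theorem aeval_pderiv_tri {K : Type*} [Field K] {R : Type*} [CommRing R] [Algebra K R]
    (D : Ten K) (hD : Window D) (q : Idx) (i j k : Fin 3) :
    aeval (0 : Idx → R) (pderiv q (tri D (row (X : Idx → MvPolynomial Idx K) i) (row X j)
      (row X k))) = algebraMap K R (Helper86.CY.tanL D i j k (Pi.single q 1)) := by
  have h0 : ∀ i : Fin 3, row (0 : Idx → R) i = fun m => algebraMap K R (bv K (c3 i) m) := by
    intro i
    funext m
    rw [row, Pi.add_apply, bv_apply, bv_apply, tv]
    split_ifs <;> simp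
  have hm : ∀ x y z : Fin 10 → K, tri D (fun m => algebraMap K R (x m))
      (fun m => algebraMap K R (y m)) (fun m => algebraMap K R (z m)) =
      algebraMap K R (tri D x y z) := by
    intro x y z
    exact (tri_map D (Algebra.ofId K R) x y z).symm
  rw [pderiv_tri, map_add, map_add, tri_map, tri_map, tri_map, aeval_row, aeval_row, aeval_row,
    aeval_pderiv_row, aeval_pderiv_row, aeval_pderiv_row, h0, h0, h0, hm, hm, hm, ← map_add,
    ← map_add, Helper86.CY.tanL_apply D hD, tanVal]

/-- The derivatives of a linear form. -/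
theorem aeval_pderiv_lin {K : Type*} [Field K] {R : Type*} [CommRing R] [Algebra K R]
    (y : Idx → R) (q : Idx) (φ : (Idx → K) →ₗ[K] K) :
    aeval y (pderiv q (lin φ)) = algebraMap K R (φ (Pi.single q 1)) := by
  rw [lin, map_sum, map_sum, Finset.sum_eq_single q]
  · simp
  · intro b _ hb
    rw [Derivation.leibniz, pderiv_C, pderiv_X_of_ne hb]
    simp
  · simp

theorem aeval_lin_zero {K : Type*} [Field K] {R : Type*} [CommRing R] [Algebra K R]
    (φ : (Idx → K) →ₗ[K] K) : aeval (0 : Idx → R) (lin φ) = 0 := by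
  rw [lin, map_sum]
  refine Finset.sum_eq_zero fun b _ => ?_
  simp

/-- The twenty-one equations. -/
noncomputable def eqs {K : Type*} [Field K] (D : Ten K) :
    Fin 10 ⊕ Fin 11 → MvPolynomial Idx K
  | Sum.inl s => tri D (row X (ta s)) (row X (tb s)) (row X (tc s))
  | Sum.inr l => lin ((LinearMap.proj l).comp (Helper86.CY.coordL D))

/-- Their linear parts. -/
noncomputable def eqL {K : Type*} [Field K] (D : Ten K) :
    Fin 10 ⊕ Fin 11 → ((Idx → K) →ₗ[K] K)
  | Sum.inl s => Helper86.CY.tanL D (ta s) (tb s) (tc s)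
  | Sum.inr l => (LinearMap.proj l).comp (Helper86.CY.coordL D)

theorem eqL_inj {K : Type*} [Field K] [CharZero K] (D : Ten K) (hD : Window D) (τ : Idx → K)
    (h : ∀ s, eqL D s τ = 0) : τ = 0 := by
  refine Helper86.CY.coordL_inj D hD τ ?_ (funext fun l => h (Sum.inr l))
  intro i j k
  rw [← Helper86.CY.tanL_apply D hD]
  refine zero_of_ten (fun i j k => Helper86.CY.tanL D i j k τ) ?_ ?_
    (fun s => h (Sum.inl s)) i j k
  · intro i j k
    simp only [Helper86.CY.tanL, LinearMap.add_apply]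
    rw [Helper86.CY.qL_symm D hD k i j]
    ring
  · intro i j k
    simp only [Helper86.CY.tanL, LinearMap.add_apply]
    rw [Helper86.CY.qL_symm D hD i j k]
    ring

theorem aeval_pderiv_eqs {K : Type*} [Field K] {R : Type*} [CommRing R] [Algebra K R]
    (D : Ten K) (hD : Window D) (q : Idx) (s : Fin 10 ⊕ Fin 11) :
    aeval (0 : Idx → R) (pderiv q (eqs D s)) = algebraMap K R (eqL D s (Pi.single q 1)) := by
  cases s with
  | inl s => exact aeval_pderiv_tri D hD q _ _ _
  | inr l => exact aeval_pderiv_lin _ q _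

theorem aeval_eqs_zero {K : Type*} [Field K] {R : Type*} [CommRing R] [Algebra K R]
    (D : Ten K) (hD : Window D) (s : Fin 10 ⊕ Fin 11) :
    aeval (0 : Idx → R) (eqs D s) = 0 := by
  cases s with
  | inl s =>
    have h0 : ∀ i : Fin 3, row (0 : Idx → R) i = bv R (c3 i) := by
      intro i
      funext m
      rw [row, Pi.add_apply, tv]
      split_ifs <;> simp
    change aeval _ (tri D _ _ _) = 0
    rw [aeval_tri_row, h0, h0, h0, tri_bv, Helper86.CY.window_zero3 D hD, map_zero]
  | inr l => exact aeval_lin_zero _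

/-- A bijection between the entries and the equations. -/
noncomputable def eqE : Idx ≃ Fin 10 ⊕ Fin 11 :=
  Fintype.equivOfCardEq (by simp [Idx])

theorem exists_pts_of {K : Type*} [Field K] [CharZero K] [Algebra K ℚ_[2]]
    (halg : ∀ (G : Idx → MvPolynomial Idx K) (x : Idx → ℚ_[2]),
      (Matrix.of fun i j => aeval x (pderiv j (G i))).det ≠ 0 → ∀ U : Set (Idx → ℚ_[2]),
      U ∈ 𝓝 x → ∃ W ∈ 𝓝 (fun i => aeval x (G i)), ∀ z : Idx → K,
        (fun i => algebraMap K ℚ_[2] (z i)) ∈ W → ∃ y ∈ U,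
          (∀ i, aeval y (G i) = algebraMap K ℚ_[2] (z i)) ∧ ∀ i, IsAlgebraic K (y i))
    (D : Ten K) (hD : Window D) (ε : ℝ) (hε : 0 < ε) : ∃ x : Idx → ℚ_[2],
      (∀ q, IsAlgebraic K (x q)) ∧ Pl D x ∧ x ≠ 0 ∧ ‖x‖ < ε := by
  classical
  set G : Idx → MvPolynomial Idx K := fun i => eqs D (eqE i) with hG
  have hdet : (Matrix.of fun i j => aeval (0 : Idx → ℚ_[2]) (pderiv j (G i))).det ≠ 0 := by
    set M : Matrix Idx Idx K := Matrix.of fun i j => eqL D (eqE i) (Pi.single j 1) with hM
    have h1 : (Matrix.of fun i j => aeval (0 : Idx → ℚ_[2]) (pderiv j (G i))) =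
        (algebraMap K ℚ_[2]).mapMatrix M := by
      ext i j
      exact aeval_pderiv_eqs D hD j (eqE i)
    rw [h1, ← RingHom.map_det]
    intro h2
    have h3 : M.det = 0 := (map_eq_zero (algebraMap K ℚ_[2])).1 h2
    obtain ⟨v, hv, hMv⟩ := Matrix.exists_mulVec_eq_zero_iff.2 h3
    apply hv
    refine eqL_inj D hD v fun s => ?_
    have h4 := congrFun hMv (eqE.symm s)
    have h5 : v = ∑ q, v q • (Pi.single q (1 : K) : Idx → K) := by
      funext p
      rw [Finset.sum_apply, Finset.sum_eq_single p]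
      · simp
      · intro b _ hb
        simp [Ne.symm hb]
      · simp
    rw [h5, map_sum]
    rw [Matrix.mulVec, dotProduct, Pi.zero_apply] at h4
    rw [← h4]
    refine Finset.sum_congr rfl fun q _ => ?_
    rw [map_smul, smul_eq_mul, hM, Matrix.of_apply, Equiv.apply_symm_apply, mul_comm]
  obtain ⟨W, hW, hWz⟩ := halg G 0 hdet (Metric.ball 0 ε) (Metric.ball_mem_nhds _ hε)
  have h0 : (fun i => aeval (0 : Idx → ℚ_[2]) (G i)) = 0 := by
    funext i
    exact aeval_eqs_zero D hD (eqE i)
  rw [h0] at hW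
  set p0 : Idx := eqE.symm (Sum.inr 0) with hp0
  have htend : Tendsto (fun N : ℕ => fun i : Idx =>
      algebraMap K ℚ_[2] ((Pi.single p0 ((2 : K) ^ N) : Idx → K) i)) atTop (𝓝 0) := by
    rw [tendsto_pi_nhds]
    intro i
    by_cases hi : i = p0
    · subst hi
      have h1 : (fun N : ℕ => algebraMap K ℚ_[2] ((Pi.single p0 ((2 : K) ^ N) : Idx → K) p0)) =
          fun N : ℕ => (2 : ℚ_[2]) ^ N := by
        funext N
        rw [Pi.single_eq_same, map_pow, map_ofNat]
      rw [h1]
      refine tendsto_pow_atTop_nhds_zero_of_norm_lt_one ?_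
      exact_mod_cast Padic.norm_p_lt_one (p := 2)
    · have h1 : (fun N : ℕ => algebraMap K ℚ_[2] ((Pi.single p0 ((2 : K) ^ N) : Idx → K) i)) =
          fun N : ℕ => (0 : ℚ_[2]) := by
        funext N
        rw [Pi.single_eq_of_ne hi, map_zero]
      rw [h1]
      exact tendsto_const_nhds
  obtain ⟨N, hN⟩ := (htend.eventually hW).exists
  obtain ⟨y, hyU, hy, hyalg⟩ := hWz _ hN
  refine ⟨y, hyalg, ?_, ?_, ?_⟩
  · intro i j k
    refine zero_of_ten (fun i j k => tri D (row y i) (row y j) (row y k)) ?_ ?_ ?_ i j k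
    · intro i j k
      exact tri_swap12 hD.swap12 _ _ _
    · intro i j k
      exact tri_swap23 hD.swap23 _ _ _
    · intro s
      have h1 := hy (eqE.symm (Sum.inl s))
      rw [hG] at h1
      simp only [Equiv.apply_symm_apply] at h1
      have h2 : (Pi.single p0 ((2 : K) ^ N) : Idx → K) (eqE.symm (Sum.inl s)) = 0 := by
        refine Pi.single_eq_of_ne ?_ _
        rw [hp0]
        intro h3
        exact Sum.inl_ne_inr (eqE.symm.injective h3)
      rw [h2, map_zero] at h1
      have h4 : aeval y (tri D (row (X : Idx → MvPolynomial Idx K) (ta s)) (row X (tb s))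
        (row X (tc s))) = 0 := h1
      rwa [aeval_tri_row] at h4
  · rintro rfl
    have h1 := hy p0
    rw [aeval_eqs_zero D hD] at h1
    simp only [Pi.single_eq_same, map_pow, map_ofNat] at h1
    exact pow_ne_zero N (two_ne_zero) h1.symm
  · simpa using hyU

theorem exists_pts {K : Type*} [Field K] [CharZero K] [Algebra K ℚ_[2]] (D : Ten K)
    (hD : Window D) (ε : ℝ) (hε : 0 < ε) : ∃ x : Idx → ℚ_[2],
      (∀ q, IsAlgebraic K (x q)) ∧ Pl D x ∧ x ≠ 0 ∧ ‖x‖ < ε :=
  exists_pts_of (fun G x hJ U hU => Helper24.CQ.alg_inverse G x hJ U hU) D hD ε hε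

end Pool.Agent.Helper13.CQ
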